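import Pool.Agent.N931.PN.Stm4

/-!
Project PN (helper931), part P1: the paths are close (measure form).
-/

set_option autoImplicit false

namespace Pool.Agent.N738.PN.P1

open H974 H12S H389NS H984N H984P H342P Finset MeasureTheory Filter Topology
open Pool.Agent.N116.EW Pool.Agent.N931.PN
open H342L (cdist Curve)

theorem main : S_STB → S_P1 := by
  intro h R
  obtain ⟨C, δ0, hC, hδ0, hh⟩ := h R
  refine ⟨C, δ0, hC, hδ0, fun δ hδ hδ' ε r hr => ?_⟩
  have h1 := hh δ ε r hδ hδ' ε.2.1 ε.2.2 hr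
  have h2 : (law2 R δ ε : Measure (Curve × Curve)) {q | r < dist q.1 q.2} =
      law2M R δ ε {q | r < dist q.1 q.2} := rfl
  rw [h2, law2M_apply R δ ε (meas_far r)]
  refine ENNReal.ofReal_le_ofReal ?_
  have h3 : C * ((ε : ℝ) * δ ^ (-(3 / 4) : ℝ)) * r ^ (-(5 / 4) : ℝ) =
      C * (((ε : ℝ) * δ ^ (-(3 / 4) : ℝ)) * r ^ (-(5 / 4) : ℝ)) := by ring
  rw [h3]
  exact h1

end Pool.Agent.N738.PN.P1
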